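import Mathlib
import Pool.Agent.Lib.MP_de06d2_co.Core

set_option autoImplicit false

namespace Pool.Agent.Results.MP_de06d2_co.GirthSeven

/-- For every `k` there is `c` such that every finite graph of girth at least `7` having a tree
decomposition of width at most `k` has a 2-colouring with clustering `c`. -/
theorem result :
    ∀ k : ℕ, ∃ c : ℕ, ∀ (V : Type) [Fintype V] (G : SimpleGraph V),
      (7 : ℕ∞) ≤ G.egirth →
      (∃ n : ℕ, ∃ T : SimpleGraph (Fin n), T.IsTree ∧ ∃ B : Fin n → Finset V,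
        (∀ i, (B i).card ≤ k + 1) ∧
        (∀ v : V, ∃ i, v ∈ B i) ∧
        (∀ u v : V, G.Adj u v → ∃ i, u ∈ B i ∧ v ∈ B i) ∧
        (∀ v : V, (T.induce {i | v ∈ B i}).Connected)) →
      ∃ f : V → Fin 2, ∀ s : Finset V, (∀ x ∈ s, ∀ y ∈ s, f x = f y) →
        (G.induce (s : Set V)).Connected → s.card ≤ c := by
  intro k
  obtain ⟨c, hc⟩ := Pool.Agent.Lib.MP_de06d2_co.main k
  exact ⟨c, fun V _ G hg hT => hc V G hg hT⟩

end Pool.Agent.Results.MP_de06d2_co.GirthSeven
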